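import Pool.Agent.helper73.BRZ.Spec

/-!
# Project brz: ORE (the self-dual order of `D`, with the unit element)

`O_D = {y : single 0 0 y * X ⊆ X}`, `X = {a ∈ O : e a = a}`; see the docstring of `ORE_stmt` and of `ORD_stmt`.
-/

set_option autoImplicit false

namespace Pool.Agent.BRZ

open Matrix Module Pool.Agent.PR Pool.Agent.SHL

/-- clearing denominators -/
theorem ORE_cl {R : Type} [Ring R] [Algebra ℚ R] (O : Subring R)
    (hs : Submodule.span ℚ (O : Set R) = ⊤) (a : R) : ∃ N : ℤ, N ≠ 0 ∧ N • a ∈ O := by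
  have ha : a ∈ Submodule.span ℚ (O : Set R) := by rw [hs]; trivial
  induction ha using Submodule.span_induction with
  | mem x hx => exact ⟨1, one_ne_zero, by rw [one_smul]; exact hx⟩
  | zero => exact ⟨1, one_ne_zero, by rw [smul_zero]; exact O.zero_mem⟩
  | add x y _ _ hx hy =>
    obtain ⟨N, hN, h1⟩ := hx
    obtain ⟨N', hN', h2⟩ := hy
    refine ⟨N * N', mul_ne_zero hN hN', ?_⟩
    rw [smul_add]
    refine O.add_mem ?_ ?_
    · rw [mul_comm, mul_smul]
      exact O.zsmul_mem h1 N'
    · rw [mul_smul]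
      exact O.zsmul_mem h2 N
  | smul q x _ hx =>
    obtain ⟨N, hN, h1⟩ := hx
    refine ⟨N * q.den, mul_ne_zero hN (by exact_mod_cast q.den_ne_zero), ?_⟩
    have h2 : (N * (q.den : ℤ)) • (q • x) = q.num • (N • x) := by
      rw [← Int.cast_smul_eq_zsmul ℚ (N * (q.den : ℤ)), ← Int.cast_smul_eq_zsmul ℚ q.num,
        ← Int.cast_smul_eq_zsmul ℚ N, smul_smul, smul_smul]
      congr 1
      push_cast
      rw [mul_assoc, mul_comm (q.den : ℚ) q, Rat.mul_den_eq_num]
      ring
    rw [h2]
    exact O.zsmul_mem h1 _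

/-- a lattice in a rational vector space has a basis -/
theorem ORE_bas (D : Type) [AddCommGroup D] [Module ℚ D] [FiniteDimensional ℚ D] (n : ℕ)
    (hn : finrank ℚ D = n) (P : Submodule ℤ D) (hP : P.FG)
    (hm : ∀ y : D, ∃ N : ℤ, N ≠ 0 ∧ N • y ∈ P) :
    ∃ b : Basis (Fin n) ℚ D, ∀ y, y ∈ P ↔ ∃ c : Fin n → ℤ, y = ∑ l, c l • b l := by
  have htf : IsAddTorsionFree D := .of_module_rat _
  have hfi : Module.Finite ℤ P := Module.Finite.of_fg hP
  have hfr : Module.Free ℤ P := Module.free_of_finite_type_torsion_free'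
  set b0 := Module.Free.chooseBasis ℤ P with hb0
  have li : LinearIndependent ℤ (fun i => (b0 i : D)) :=
    b0.linearIndependent.map' P.subtype (Submodule.ker_subtype P)
  have liq : LinearIndependent ℚ (fun i => (b0 i : D)) := (LinearIndependent.iff_fractionRing ℤ ℚ).1 li
  have hrep : ∀ y : P, (y : D) = ∑ i, (b0.repr y i) • (b0 i : D) := by
    intro y
    have h2 := congrArg (P.subtype) (b0.sum_repr y)
    rw [map_sum] at h2
    simp only [map_smul, Submodule.subtype_apply] at h2
    exact h2.symm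
  have sp : ⊤ ≤ Submodule.span ℚ (Set.range fun i => (b0 i : D)) := by
    intro y _
    obtain ⟨N, hN, hy⟩ := hm y
    have h1 : N • y ∈ Submodule.span ℚ (Set.range fun i => (b0 i : D)) := by
      have h3 := hrep ⟨N • y, hy⟩
      change N • y = _ at h3
      rw [h3]
      refine Submodule.sum_mem _ fun i _ => ?_
      exact zsmul_mem (Submodule.subset_span (Set.mem_range_self i)) _
    have h4 : y = ((N : ℚ)⁻¹) • (N • y) := by
      rw [← Int.cast_smul_eq_zsmul ℚ, smul_smul, inv_mul_cancel₀ (by exact_mod_cast hN), one_smul]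
    rw [h4]
    exact Submodule.smul_mem _ _ h1
  let b1 : Basis _ ℚ D := Basis.mk liq sp
  have hb1 : ∀ i, b1 i = (b0 i : D) := fun i => Basis.mk_apply liq sp i
  have card : Fintype.card (Module.Free.ChooseBasisIndex ℤ P) = n := by
    rw [← hn]
    exact (Module.finrank_eq_card_basis b1).symm
  let e := Fintype.equivFinOfCardEq card
  have hbe : ∀ i, (b1.reindex e) i = (b0 (e.symm i) : D) := fun i => by
    rw [Basis.reindex_apply, hb1]
  refine ⟨b1.reindex e, fun y => ⟨fun hy => ?_, ?_⟩⟩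
  · refine ⟨fun i => b0.repr ⟨y, hy⟩ (e.symm i), ?_⟩
    have h3 := hrep ⟨y, hy⟩
    change y = _ at h3
    conv_lhs => rw [h3]
    simp only [hbe]
    exact (Equiv.sum_comp e.symm (fun i => (b0.repr ⟨y, hy⟩ i) • (b0 i : D))).symm
  · rintro ⟨c, rfl⟩
    refine Submodule.sum_mem _ fun i _ => ?_
    rw [hbe]
    exact P.smul_mem _ (b0 (e.symm i)).2

/-- the integral form and its inverse -/
theorem ORE_det (n : ℕ) (T W : Matrix (Fin n) (Fin n) ℤ) (h : W * T = 1) : T.det ^ 2 = 1 := by
  have h1 : W.det * T.det = 1 := by rw [← det_mul, h, det_one]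
  have h2 : IsUnit T.det := IsUnit.of_mul_eq_one _ (by rw [mul_comm]; exact h1)
  rcases Int.isUnit_iff.1 h2 with h3 | h3 <;> rw [h3] <;> norm_num

theorem ORE_core (k d : ℕ) (hk : 0 < k) (D : Type) [DivisionRing D] [Algebra ℚ D]
    [FiniteDimensional ℚ D] (τ : Matrix (Fin k) (Fin k) D →ₗ[ℚ] ℚ)
    (O : Subring (Matrix (Fin k) (Fin k) D)) (hfin : finrank ℚ D = d * d) (hd : 0 < d)
    (htr : ∀ x y : Matrix (Fin k) (Fin k) D, τ (x * y) = τ (y * x))
    (hfg : ∃ M : Submodule ℤ (Matrix (Fin k) (Fin k) D), M.FG ∧ ∀ x, x ∈ M ↔ x ∈ O)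
    (hsp : Submodule.span ℚ (O : Set (Matrix (Fin k) (Fin k) D)) = ⊤)
    (hsd : ∀ x : Matrix (Fin k) (Fin k) D, (∀ y ∈ O, ∃ z : ℤ, τ (x * y) = z) → x ∈ O)
    (ht : ∀ x : D, (d : ℚ) * τ (Matrix.single ⟨0, hk⟩ ⟨0, hk⟩ x) = tra x)
    (hint : ∀ x : D, IsIntegral ℤ x → ∃ z : ℤ, τ (Matrix.single ⟨0, hk⟩ ⟨0, hk⟩ x) = z) :
    Nonempty (SO d D) := by
  generalize (⟨0, hk⟩ : Fin k) = i0 at ht hint
  obtain ⟨M, hM, hMO⟩ := hfg
  have ee : ∀ y z : D, single i0 i0 y * single i0 i0 z = single i0 i0 (y * z) := fun y z => by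
    rw [single_mul_single_same]
  -- the module `X`
  let X : Submodule ℤ (Matrix (Fin k) (Fin k) D) :=
    { carrier := {a | a ∈ M ∧ single i0 i0 1 * a = a}
      add_mem' := by
        rintro a b ⟨h1, h2⟩ ⟨h3, h4⟩
        exact ⟨M.add_mem h1 h3, by rw [mul_add, h2, h4]⟩
      zero_mem' := ⟨M.zero_mem, mul_zero _⟩
      smul_mem' := by
        rintro n a ⟨h1, h2⟩
        exact ⟨M.smul_mem n h1, by rw [mul_smul_comm, h2]⟩ }
  have hXm : ∀ a, a ∈ X ↔ a ∈ O ∧ single i0 i0 1 * a = a := fun a => by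
    rw [← hMO]
    rfl
  have hXle : X ≤ M := fun a ha => ha.1
  have hMn : IsNoetherian ℤ M := isNoetherian_of_fg_of_noetherian M hM
  have hle : ∀ s ≤ X, s.FG := fun s hs => isNoetherian_submodule.1 hMn s (hs.trans hXle)
  have hX : X.FG := hle X le_rfl
  have he1 : ∀ (y : D) (a : Matrix (Fin k) (Fin k) D),
      single i0 i0 1 * (single i0 i0 y * a) = single i0 i0 y * a := fun y a => by
    rw [← mul_assoc, ee, one_mul]
  have hsz : ∀ (n : ℤ) (y : D), (single i0 i0 (n • y) : Matrix (Fin k) (Fin k) D) =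
      n • single i0 i0 y := fun n y => (smul_single n i0 i0 y).symm
  have hsq : ∀ (c : ℚ) (y : D), (single i0 i0 (c • y) : Matrix (Fin k) (Fin k) D) =
      c • single i0 i0 y := fun c y => by
    ext i j
    rw [Matrix.smul_apply, single_apply, single_apply]
    split_ifs
    · rfl
    · rw [Algebra.smul_def, mul_zero]
  -- the order `A`
  let A : Subalgebra ℤ D :=
    { carrier := {y | ∀ a ∈ X, single i0 i0 y * a ∈ X}
      mul_mem' := by
        intro y z hy hz a ha
        rw [← ee, mul_assoc]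
        exact hy _ (hz a ha)
      one_mem' := fun a ha => by
        rw [((hXm a).1 ha).2]
        exact ha
      add_mem' := by
        intro y z hy hz a ha
        rw [single_add, add_mul]
        exact X.add_mem (hy a ha) (hz a ha)
      zero_mem' := by
        intro a ha
        rw [single_zero, zero_mul]
        exact X.zero_mem
      algebraMap_mem' := by
        intro n a ha
        rw [Algebra.algebraMap_eq_smul_one, hsz, smul_mul_assoc, ((hXm a).1 ha).2]
        exact X.smul_mem n ha }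
  have hAm : ∀ y, y ∈ A ↔ ∀ a ∈ X, single i0 i0 y * a ∈ O := by
    intro y
    constructor
    · intro h a ha
      exact ((hXm _).1 (h a ha)).1
    · intro h a ha
      exact (hXm _).2 ⟨h a ha, he1 y a⟩
  -- finitely generated
  have hAfg : (Subalgebra.toSubmodule A).FG := by
    obtain ⟨N, hN, hNe⟩ := ORE_cl O hsp (single i0 i0 1)
    have hNX : N • (single i0 i0 1 : Matrix (Fin k) (Fin k) D) ∈ X :=
      (hXm _).2 ⟨hNe, by rw [mul_smul_comm, ee, one_mul]⟩
    let f : D →ₗ[ℤ] Matrix (Fin k) (Fin k) D :=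
      { toFun := fun y => single i0 i0 y * (N • single i0 i0 1)
        map_add' := fun y z => by rw [single_add, add_mul]
        map_smul' := fun n y => by rw [hsz, smul_mul_assoc]; rfl }
    have hf : Function.Injective f := by
      rw [injective_iff_map_eq_zero]
      intro y hy
      change single i0 i0 y * (N • single i0 i0 1) = 0 at hy
      rw [mul_smul_comm, ee, mul_one] at hy
      have h1 := congrFun (congrFun hy i0) i0
      rw [Matrix.smul_apply, single_apply_same, Matrix.zero_apply] at h1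
      rw [← Int.cast_smul_eq_zsmul ℚ] at h1
      exact (smul_eq_zero.1 h1).resolve_left (by exact_mod_cast hN)
    apply Submodule.fg_of_fg_map_injective f hf
    apply hle
    rintro _ ⟨y, hy, rfl⟩
    exact hy _ hNX
  -- multiples
  have hmul : ∀ y : D, ∃ N : ℤ, N ≠ 0 ∧ N • y ∈ Subalgebra.toSubmodule A := by
    intro y
    obtain ⟨S, hS⟩ := hX
    have h1 : ∀ S : Finset (Matrix (Fin k) (Fin k) D), ∃ N : ℤ, N ≠ 0 ∧
        ∀ a ∈ S, N • (single i0 i0 y * a) ∈ O := by
      intro S
      classical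
      induction S using Finset.induction_on with
      | empty => exact ⟨1, one_ne_zero, fun a ha => absurd ha (Finset.notMem_empty a)⟩
      | insert a S _ ih =>
        obtain ⟨N, hN, h⟩ := ih
        obtain ⟨N', hN', h'⟩ := ORE_cl O hsp (single i0 i0 y * a)
        refine ⟨N * N', mul_ne_zero hN hN', fun b hb => ?_⟩
        rcases Finset.mem_insert.1 hb with rfl | hb
        · rw [mul_smul]
          exact O.zsmul_mem h' N
        · rw [mul_comm, mul_smul]
          exact O.zsmul_mem (h b hb) N'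
    obtain ⟨N, hN, h⟩ := h1 S
    refine ⟨N, hN, (hAm _).2 fun a ha => ?_⟩
    rw [hsz, smul_mul_assoc]
    rw [← hS] at ha
    induction ha using Submodule.span_induction with
    | mem x hx => exact h x hx
    | zero =>
      rw [mul_zero, smul_zero]
      exact O.zero_mem
    | add x z _ _ hx hz =>
      rw [mul_add, smul_add]
      exact O.add_mem hx hz
    | smul n x _ hx =>
      rw [mul_smul_comm, smul_comm]
      exact O.zsmul_mem hx n
  -- self-dual
  have hsdA : ∀ y : D, (∀ z ∈ A, ∃ m : ℤ, τ (single i0 i0 (y * z)) = m) → y ∈ A := by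
    intro y hy
    refine (hAm y).2 fun a ha => hsd _ fun b hb => ?_
    obtain ⟨ha1, ha2⟩ := (hXm a).1 ha
    have hz : a * b * single i0 i0 1 = single i0 i0 ((a * b) i0 i0) := by
      have h1 : a * b * single i0 i0 1 = single i0 i0 1 * (a * b) * single i0 i0 (1 : D) := by
        rw [← mul_assoc (single i0 i0 1) a b, ha2]
      rw [h1, single_mul_mul_single, one_mul, mul_one]
    have hzA : (a * b) i0 i0 ∈ A := by
      refine (hAm _).2 fun a' ha' => ?_
      obtain ⟨ha1', ha2'⟩ := (hXm a').1 ha'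
      rw [← hz, mul_assoc, ha2']
      exact O.mul_mem (O.mul_mem ha1 hb) ha1'
    obtain ⟨m, hm⟩ := hy _ hzA
    refine ⟨m, ?_⟩
    rw [← hm, ← ee, ← hz, ← mul_assoc, ← mul_assoc, htr (single i0 i0 y * a * b)]
    rw [mul_assoc (single i0 i0 y) a b, he1]
  -- the basis
  obtain ⟨b, hb⟩ := ORE_bas D (d * d) hfin (Subalgebra.toSubmodule A) hAfg hmul
  have hbA : ∀ y, y ∈ A ↔ ∃ c : Fin (d * d) → ℤ, y = ∑ l, c l • b l := hb
  have hbi : ∀ i, b i ∈ A := by
    intro i
    refine (hbA _).2 ⟨Pi.single i 1, ?_⟩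
    rw [Finset.sum_eq_single i]
    · rw [Pi.single_eq_same, one_smul]
    · intro j _ hj
      rw [Pi.single_eq_of_ne hj, zero_smul]
    · intro h
      exact absurd (Finset.mem_univ i) h
  have hAint : ∀ y ∈ A, ∃ z : ℤ, τ (single i0 i0 y) = z := fun y hy =>
    hint y (IsIntegral.of_mem_of_fg A hAfg y hy)
  choose T hT using fun i j => hAint (b i * b j) (A.mul_mem (hbi i) (hbi j))
  -- the dual basis
  let Φ : D →ₗ[ℚ] Module.Dual ℚ D :=
    LinearMap.mk₂ ℚ (fun y z => τ (single i0 i0 (y * z)))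
      (fun y y' z => by rw [add_mul, single_add, map_add])
      (fun c y z => by rw [smul_mul_assoc, hsq, map_smul])
      (fun y z z' => by rw [mul_add, single_add, map_add])
      (fun c y z => by rw [mul_smul_comm, hsq, map_smul])
  have hΦ : ∀ y z, Φ y z = τ (single i0 i0 (y * z)) := fun y z => rfl
  have hΦi : Function.Injective Φ := by
    rw [injective_iff_map_eq_zero]
    intro y hy
    by_contra hy0
    have h1 : Φ y y⁻¹ = 0 := by rw [hy, LinearMap.zero_apply]
    rw [hΦ, mul_inv_cancel₀ hy0] at h1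
    have h2 := ht 1
    rw [h1, mul_zero] at h2
    have h3 : tra (1 : D) = (d * d : ℚ) := by
      unfold tra
      rw [LinearMap.mulLeft_one, LinearMap.trace_id, hfin]
      push_cast
      ring
    rw [h3] at h2
    have h4 : (d : ℚ) ≠ 0 := by exact_mod_cast hd.ne'
    exact (mul_ne_zero h4 h4) h2.symm
  have hΦs : Function.Surjective Φ :=
    (LinearMap.injective_iff_surjective_of_finrank_eq_finrank
      (Subspace.dual_finrank_eq (K := ℚ) (V := D)).symm).1 hΦi
  have hdual : ∀ j, ∃ y ∈ A, ∀ i, Φ y (b i) = if i = j then 1 else 0 := by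
    intro j
    obtain ⟨y, hy⟩ := hΦs (b.coord j)
    refine ⟨y, hsdA y fun z hz => ?_, fun i => ?_⟩
    · obtain ⟨c, rfl⟩ := (hbA z).1 hz
      refine ⟨c j, ?_⟩
      rw [← hΦ, hy, map_sum]
      rw [Finset.sum_eq_single j]
      · rw [map_zsmul, Basis.coord_apply, Basis.repr_self, Finsupp.single_eq_same, zsmul_eq_mul,
          mul_one]
      · intro l _ hl
        rw [map_zsmul, Basis.coord_apply, Basis.repr_self, Finsupp.single_eq_of_ne (Ne.symm hl),
          smul_zero]
      · intro h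
        exact absurd (Finset.mem_univ j) h
    · rw [hy, Basis.coord_apply, Basis.repr_self, Finsupp.single_apply]
  choose Y hYA hY using hdual
  choose W hW using fun j => (hbA (Y j)).1 (hYA j)
  have hWT : (Matrix.of W : Matrix (Fin (d * d)) (Fin (d * d)) ℤ) * Matrix.of T = 1 := by
    ext j i
    have h1 := hY j i
    rw [hW j, map_sum, LinearMap.sum_apply] at h1
    have h2 : ∀ l, Φ (W j l • b l) (b i) = (W j l : ℚ) * T l i := by
      intro l
      rw [map_zsmul, LinearMap.smul_apply, hΦ, hT, zsmul_eq_mul]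
    rw [Finset.sum_congr rfl fun l _ => h2 l] at h1
    rw [Matrix.mul_apply, Matrix.one_apply]
    simp only [Matrix.of_apply]
    have h3 : ((∑ l, W j l * T l i : ℤ) : ℚ) = ((if j = i then 1 else 0 : ℤ) : ℚ) := by
      push_cast
      rw [h1]
      by_cases h : i = j
      · rw [if_pos h, if_pos h.symm]
      · rw [if_neg h, if_neg (Ne.symm h)]
    exact_mod_cast h3
  refine ⟨{ b := b, mul := ?_, one := ?_, T := Matrix.of T, tr := ?_, det := ?_ }⟩
  · intro i j
    exact (hbA _).1 (A.mul_mem (hbi i) (hbi j))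
  · exact (hbA _).1 A.one_mem
  · intro i j
    rw [← ht, hT]
    rfl
  · exact ORE_det _ _ _ hWT

theorem ORE : ORE_stmt := by
  intro k d hk D _ _ _ τ O h1 h2 h3 h4 h5 h6 h7 h8
  exact ORE_core k d hk D τ O h1 h2 h3 h4 h5 h6 h7 h8

end Pool.Agent.BRZ
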